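import Pool.Agent.Y667.RZ.Stm

/-!
# Project RZ (helper667), part DSC: discrepancy of the primes of `Pt X` on average over the moduli
-/

set_option autoImplicit false

open Finset Filter

namespace Pool.Agent.Y823.RZ

open Pool.Agent.Y667.RP Pool.Agent.Y667.RZ

/-- telescoping sum -/
lemma tele (q y : ℕ) (hy : q ≤ y) :
    ∑ t ∈ Icc q y, (1 / ((t : ℝ) - 1) - 1 / (t : ℝ)) = 1 / ((q : ℝ) - 1) - 1 / (y : ℝ) := by
  induction y, hy using Nat.le_induction with
  | base => simp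
  | succ y hy ih =>
    rw [Finset.sum_Icc_succ_top (by omega), ih]
    push_cast
    ring

/-- partial summation -/
lemma abel (P : ℕ → Prop) [DecidablePred P] (b y : ℕ) (hb : 1 ≤ b) :
    ∑ q ∈ (Icc (b + 1) y).filter P, 1 / ((q : ℝ) - 1) =
      (((Icc (b + 1) y).filter P).card : ℝ) / y +
        ∑ t ∈ Icc (b + 1) y, (((Icc (b + 1) t).filter P).card : ℝ) *
          (1 / ((t : ℝ) - 1) - 1 / (t : ℝ)) := by
  have h1 : ∀ q ∈ (Icc (b + 1) y).filter P, 1 / ((q : ℝ) - 1) = 1 / (y : ℝ) +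
      ∑ t ∈ Icc (b + 1) y, (if q ≤ t then (1 / ((t : ℝ) - 1) - 1 / (t : ℝ)) else 0) := by
    intro q hq
    rw [mem_filter, mem_Icc] at hq
    rw [← sum_filter]
    have h2 : (Icc (b + 1) y).filter (fun t => q ≤ t) = Icc q y := by
      ext t
      simp only [mem_filter, mem_Icc]
      omega
    rw [h2, tele q y hq.1.2]
    ring
  rw [sum_congr rfl h1, sum_add_distrib, sum_const, nsmul_eq_mul, mul_one_div, sum_comm]
  congr 1
  refine sum_congr rfl (fun t ht => ?_)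
  rw [← sum_filter, sum_const, nsmul_eq_mul]
  congr 2
  rw [mem_Icc] at ht
  rw [filter_filter]
  congr 1
  ext q
  simp only [mem_filter, mem_Icc]
  constructor
  · rintro ⟨⟨h3, h4⟩, h5, h6⟩
    exact ⟨⟨h3, h6⟩, h5⟩
  · rintro ⟨⟨h3, h4⟩, h5⟩
    exact ⟨⟨h3, by omega⟩, h5, h4⟩

lemma card_sub (P : ℕ → Prop) [DecidablePred P] (b t : ℕ) (hbt : b ≤ t) :
    (((Icc (b + 1) t).filter P).card : ℝ) =
      (((Icc 1 t).filter P).card : ℝ) - (((Icc 1 b).filter P).card : ℝ) := by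
  have h : ((Icc 1 t).filter P).card = ((Icc 1 b).filter P).card + ((Icc (b + 1) t).filter P).card := by
    rw [← card_union_of_disjoint]
    · congr 1
      rw [← filter_union]
      congr 1
      ext q
      simp only [mem_union, mem_Icc]
      omega
    · refine disjoint_filter_filter ?_
      rw [disjoint_left]
      intro q hq hq'
      rw [mem_Icc] at hq hq'
      omega
  rw [h]
  push_cast
  ring

/-- the difference of one class and the mean -/
lemma diff_eq (M a b y : ℕ) (hb : 1 ≤ b) (hby : b ≤ y) (φ : ℝ) :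
    ∑ q ∈ (Icc (b + 1) y).filter (fun p : ℕ => p.Prime ∧ p ≡ a [MOD M]), 1 / ((q : ℝ) - 1) -
      (∑ q ∈ (Icc (b + 1) y).filter (fun p : ℕ => p.Prime), 1 / ((q : ℝ) - 1)) / φ =
    ((H343E.piAP y M a - H343E.pi1 y / φ) - (H343E.piAP b M a - H343E.pi1 b / φ)) / y +
      ∑ t ∈ Icc (b + 1) y,
        ((H343E.piAP t M a - H343E.pi1 t / φ) - (H343E.piAP b M a - H343E.pi1 b / φ)) *
          (1 / ((t : ℝ) - 1) - 1 / (t : ℝ)) := by
  rw [abel _ b y hb, abel _ b y hb]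
  have e1 : ∀ t ∈ Icc (b + 1) y,
      ((H343E.piAP t M a - H343E.pi1 t / φ) - (H343E.piAP b M a - H343E.pi1 b / φ)) *
          (1 / ((t : ℝ) - 1) - 1 / (t : ℝ)) =
      (((Icc (b + 1) t).filter (fun p : ℕ => p.Prime ∧ p ≡ a [MOD M])).card : ℝ) *
          (1 / ((t : ℝ) - 1) - 1 / (t : ℝ)) -
      (((Icc (b + 1) t).filter (fun p : ℕ => p.Prime)).card : ℝ) *
          (1 / ((t : ℝ) - 1) - 1 / (t : ℝ)) / φ := by
    intro t ht
    rw [mem_Icc] at ht
    rw [card_sub _ b t (by omega), card_sub _ b t (by omega)]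
    unfold H343E.piAP H343E.pi1
    ring
  rw [sum_congr rfl e1, sum_sub_distrib, ← sum_div, card_sub _ b y hby, card_sub _ b y hby]
  unfold H343E.piAP H343E.pi1
  ring

lemma w_nonneg (t : ℕ) (ht : 2 ≤ t) : 0 ≤ 1 / ((t : ℝ) - 1) - 1 / (t : ℝ) := by
  have h : (2 : ℝ) ≤ t := by exact_mod_cast ht
  rw [sub_nonneg]
  exact one_div_le_one_div_of_le (by linarith) (by linarith)

/-- the bound for the discrepancy -/
lemma Dsc_le (X M b y : ℕ) (hb : 1 ≤ b) (hby : b ≤ y)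
    (hPt : Pt X = (Icc (b + 1) y).filter (fun p : ℕ => p.Prime)) :
    Dsc X M ≤ (ee y M + ee b M) / y + ∑ t ∈ Icc (b + 1) y, (ee t M + ee b M) *
      (1 / ((t : ℝ) - 1) - 1 / (t : ℝ)) := by
  unfold Dsc
  have h1 : ∀ a ∈ (range M).filter (fun a => a.Coprime M),
      |∑ q ∈ (Pt X).filter (fun q => q % M = a), 1 / ((q : ℝ) - 1) -
        (∑ q ∈ Pt X, 1 / ((q : ℝ) - 1)) / (M.totient : ℝ)| ≤
      (|H343E.piAP y M a - H343E.pi1 y / (M.totient : ℝ)| +
        |H343E.piAP b M a - H343E.pi1 b / (M.totient : ℝ)|) / y +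
      ∑ t ∈ Icc (b + 1) y, (|H343E.piAP t M a - H343E.pi1 t / (M.totient : ℝ)| +
        |H343E.piAP b M a - H343E.pi1 b / (M.totient : ℝ)|) *
          (1 / ((t : ℝ) - 1) - 1 / (t : ℝ)) := by
    intro a ha
    rw [mem_filter, mem_range] at ha
    have h2 : (Pt X).filter (fun q => q % M = a) =
        (Icc (b + 1) y).filter (fun p : ℕ => p.Prime ∧ p ≡ a [MOD M]) := by
      rw [hPt, filter_filter]
      ext q
      simp only [mem_filter, Nat.ModEq, Nat.mod_eq_of_lt ha.1]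
    rw [h2, hPt, diff_eq M a b y hb hby]
    refine (abs_add_le _ _).trans (add_le_add ?_ ?_)
    · rw [abs_div, Nat.abs_cast]
      exact div_le_div_of_nonneg_right (abs_sub _ _) (by positivity)
    · refine (abs_sum_le_sum_abs _ _).trans (sum_le_sum (fun t ht => ?_))
      rw [mem_Icc] at ht
      have h3 := w_nonneg t (by omega)
      rw [abs_mul, abs_of_nonneg h3]
      exact mul_le_mul_of_nonneg_right (abs_sub _ _) h3
  refine (sum_le_sum h1).trans (le_of_eq ?_)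
  rw [sum_add_distrib, ← sum_div, sum_add_distrib, sum_comm]
  unfold ee
  congr 1
  refine sum_congr rfl (fun t _ => ?_)
  rw [← sum_mul, sum_add_distrib]

/-- the weighted mean over the moduli `136 f` -/
lemma W_le (C F : ℕ) (t : ℕ) : ∑ f ∈ Icc 1 F, (f.divisors.card : ℝ) ^ C / f * ee t (136 * f) ≤
    136 * ∑ Q ∈ Icc 1 (136 * F), (Q.divisors.card : ℝ) ^ C / Q * ee t Q := by
  have hee : ∀ Q, 0 ≤ ee t Q := fun Q => sum_nonneg (fun _ _ => abs_nonneg _)
  have h1 : ∀ f ∈ Icc 1 F, (f.divisors.card : ℝ) ^ C / f * ee t (136 * f) ≤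
      136 * (((136 * f).divisors.card : ℝ) ^ C / ((136 * f : ℕ) : ℝ) * ee t (136 * f)) := by
    intro f hf
    rw [mem_Icc] at hf
    have hf0 : (0 : ℝ) < f := by exact_mod_cast (by omega : 0 < f)
    have h2 : (f.divisors.card : ℝ) ^ C ≤ ((136 * f).divisors.card : ℝ) ^ C := by
      apply pow_le_pow_left₀ (by positivity)
      exact_mod_cast card_le_card (Nat.divisors_subset_of_dvd (by omega) (Dvd.intro_left 136 rfl))
    have h3 : (136 : ℝ) * (((136 * f).divisors.card : ℝ) ^ C / ((136 * f : ℕ) : ℝ) *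
        ee t (136 * f)) = ((136 * f).divisors.card : ℝ) ^ C / f * ee t (136 * f) := by
      push_cast
      field_simp
    rw [h3]
    exact mul_le_mul_of_nonneg_right (div_le_div_of_nonneg_right h2 hf0.le) (hee _)
  refine (sum_le_sum h1).trans ?_
  rw [← mul_sum]
  refine mul_le_mul_of_nonneg_left ?_ (by norm_num)
  have h4 : ∑ f ∈ Icc 1 F, (((136 * f).divisors.card : ℝ) ^ C / ((136 * f : ℕ) : ℝ) *
      ee t (136 * f)) = ∑ Q ∈ (Icc 1 F).image (fun f : ℕ => (136 * f : ℕ)),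
        (Q.divisors.card : ℝ) ^ C / (Q : ℝ) * ee t Q := by
    rw [sum_image]
    intro a _ b _ h
    simpa using h
  rw [h4]
  refine sum_le_sum_of_subset_of_nonneg ?_ (fun Q _ _ => mul_nonneg (by positivity) (hee _))
  intro Q hQ
  rw [mem_image] at hQ
  obtain ⟨f, hf, rfl⟩ := hQ
  rw [mem_Icc] at hf ⊢
  omega

/-- harmonic sum -/
lemma harm (b y : ℕ) (hb : 1 ≤ b) (hby : b ≤ y) :
    ∑ t ∈ Icc (b + 1) y, 1 / ((t : ℝ) - 1) ≤ 1 + Real.log y := by
  have h1 : ∑ t ∈ Icc (b + 1) y, 1 / ((t : ℝ) - 1) ≤ ∑ s ∈ Icc 1 y, ((s : ℝ))⁻¹ := by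
    have h4 : ∑ t ∈ Icc (b + 1) y, 1 / ((t : ℝ) - 1) =
        ∑ s ∈ (Icc (b + 1) y).image (fun t : ℕ => (t - 1 : ℕ)), ((s : ℝ))⁻¹ := by
      rw [sum_image]
      · refine sum_congr rfl (fun t ht => ?_)
        rw [mem_Icc] at ht
        rw [one_div, Nat.cast_sub (by omega)]
        simp
      · intro s hs t ht h
        rw [coe_Icc, Set.mem_Icc] at hs ht
        simp only at h
        omega
    rw [h4]
    refine sum_le_sum_of_subset_of_nonneg ?_ (fun s _ _ => by positivity)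
    intro s hs
    rw [mem_image] at hs
    obtain ⟨t, ht, rfl⟩ := hs
    rw [mem_Icc] at ht ⊢
    omega
  refine h1.trans ?_
  have h2 := harmonic_le_one_add_log y
  rw [harmonic_eq_sum_Icc] at h2
  push_cast at h2
  exact h2

theorem DSC (hEE : Pool.Agent.Y667.RP.St_EE) : St_DSC := by
  intro C U
  obtain ⟨x0, hx0⟩ := hEE C (U + 2) (1 / 2) (by norm_num)
  have hlog := Real.tendsto_log_atTop.comp (tendsto_natCast_atTop_atTop (R := ℝ))
  have hpow : ∀ r : ℝ, 0 < r → Tendsto (fun X : ℕ => (X : ℝ) ^ r) atTop atTop := fun r hr =>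
    (tendsto_rpow_atTop hr).comp tendsto_natCast_atTop_atTop
  have E1 := (hpow (1 / 4) (by norm_num)).eventually_ge_atTop (x0 + 3 : ℝ)
  have E2 := (hpow (1 / 12) (by norm_num)).eventually_ge_atTop (2 : ℝ)
  have E3 := (hpow (23 / 200) (by norm_num)).eventually_ge_atTop (136 : ℝ)
  have E4 := hlog.eventually_ge_atTop (136 * 6 * 4 ^ (U + 2) : ℝ)
  obtain ⟨X0, hX0⟩ := eventually_atTop.1 (((E1.and E2).and (E3.and E4)).and (eventually_ge_atTop 1))
  refine ⟨X0, fun X hX => ?_⟩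
  obtain ⟨⟨⟨e1, e2⟩, e3, e4⟩, e5⟩ := hX0 X hX
  clear E1 E2 E3 E4 hX0
  simp only [Function.comp] at e4
  have hX1 : (1 : ℝ) ≤ X := by exact_mod_cast e5
  have hX0' : (0 : ℝ) < X := by linarith
  -- the end points
  set y1 : ℕ := ⌊(X : ℝ) ^ (1 / 2 : ℝ)⌋₊ with hy1
  set b : ℕ := ⌈(X : ℝ) ^ (1 / 3 : ℝ)⌉₊ - 1 with hb
  have h13 : (X : ℝ) ^ (1 / 4 : ℝ) + 1 ≤ (X : ℝ) ^ (1 / 3 : ℝ) := by
    have h1 : (X : ℝ) ^ (1 / 3 : ℝ) = (X : ℝ) ^ (1 / 4 : ℝ) * (X : ℝ) ^ (1 / 12 : ℝ) := by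
      rw [← Real.rpow_add hX0']; norm_num
    rw [h1]
    have h2 : (3 : ℝ) ≤ (X : ℝ) ^ (1 / 4 : ℝ) := by
      have : (0 : ℝ) ≤ x0 := Nat.cast_nonneg _
      linarith
    nlinarith
  have hceil : (1 : ℕ) ≤ ⌈(X : ℝ) ^ (1 / 3 : ℝ)⌉₊ := by
    rw [Nat.one_le_iff_ne_zero, ← Nat.pos_iff_ne_zero, Nat.ceil_pos]
    positivity
  have hb1 : b + 1 = ⌈(X : ℝ) ^ (1 / 3 : ℝ)⌉₊ := by omega
  have hbX : (X : ℝ) ^ (1 / 4 : ℝ) ≤ b := by
    have h1 := Nat.le_ceil ((X : ℝ) ^ (1 / 3 : ℝ))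
    rw [← hb1] at h1
    push_cast at h1
    linarith
  have hbx0 : x0 + 3 ≤ b := by
    have : ((x0 + 3 : ℕ) : ℝ) ≤ b := by push_cast; linarith
    exact_mod_cast this
  have hby : b ≤ y1 := by
    rw [hy1]
    apply Nat.le_floor
    have h1 : (b : ℝ) ≤ (X : ℝ) ^ (1 / 3 : ℝ) := by
      have h2 := Nat.ceil_lt_add_one (show 0 ≤ (X : ℝ) ^ (1 / 3 : ℝ) by positivity)
      rw [← hb1] at h2
      push_cast at h2
      linarith
    exact h1.trans (Real.rpow_le_rpow_of_exponent_le hX1 (by norm_num))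
  have hPt : Pt X = (Icc (b + 1) y1).filter (fun p : ℕ => p.Prime) := by
    unfold Pt
    ext q
    rw [mem_filter, mem_filter, mem_Icc, mem_Icc, hb1, Nat.ceil_le, hy1,
      Nat.le_floor_iff (by positivity)]
    constructor
    · rintro ⟨_, h1, h2, h3⟩
      exact ⟨⟨h2, h3⟩, h1⟩
    · rintro ⟨⟨h2, h3⟩, h1⟩
      refine ⟨⟨h1.one_lt.le, ?_⟩, h1, h2, h3⟩
      have h4 : (q : ℝ) ≤ X := by
        calc (q : ℝ) ≤ (X : ℝ) ^ (1 / 2 : ℝ) := h3
          _ ≤ (X : ℝ) ^ (1 : ℝ) := Real.rpow_le_rpow_of_exponent_le hX1 (by norm_num)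
          _ = X := Real.rpow_one _
      exact_mod_cast h4
  -- the logarithm
  set F : ℕ := ⌊(X : ℝ) ^ (1 / 100 : ℝ)⌋₊ with hF
  set L : ℝ := Real.log b with hL
  have hLX : Real.log X / 4 ≤ L := by
    have h1 := Real.log_le_log (by positivity) hbX
    rw [Real.log_rpow hX0'] at h1
    linarith
  have hlogX : 136 * 6 * 4 ^ (U + 2) ≤ Real.log X := e4
  have hlogX1 : (1 : ℝ) ≤ Real.log X := by
    have : (1 : ℝ) ≤ 4 ^ (U + 2) := one_le_pow₀ (by norm_num)
    linarith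
  have hL0 : 0 < L := by linarith
  -- the weighted means
  have hW : ∀ t : ℕ, b ≤ t →
      ∑ f ∈ Icc 1 F, (f.divisors.card : ℝ) ^ C / f * ee t (136 * f) ≤ 136 * (t / L ^ (U + 2)) := by
    intro t hbt
    refine (W_le C F t).trans (mul_le_mul_of_nonneg_left ?_ (by norm_num))
    have hbt' : (b : ℝ) ≤ t := by exact_mod_cast hbt
    have hb0 : (0 : ℝ) < b := by exact_mod_cast (by omega : 0 < b)
    have h1 : ((136 * F : ℕ) : ℝ) ≤ (t : ℝ) ^ (1 - 1 / 2 : ℝ) := by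
      have h2 : (F : ℝ) ≤ (X : ℝ) ^ (1 / 100 : ℝ) := Nat.floor_le (by positivity)
      have h3 : (136 : ℝ) * (X : ℝ) ^ (1 / 100 : ℝ) ≤ (X : ℝ) ^ (1 / 8 : ℝ) := by
        have h4 : (X : ℝ) ^ (1 / 8 : ℝ) = (X : ℝ) ^ (23 / 200 : ℝ) * (X : ℝ) ^ (1 / 100 : ℝ) := by
          rw [← Real.rpow_add hX0']; norm_num
        rw [h4]
        exact mul_le_mul_of_nonneg_right e3 (by positivity)
      have h5 : (X : ℝ) ^ (1 / 8 : ℝ) ≤ (t : ℝ) ^ (1 - 1 / 2 : ℝ) := by
        have h6 : (X : ℝ) ^ (1 / 8 : ℝ) = ((X : ℝ) ^ (1 / 4 : ℝ)) ^ (1 - 1 / 2 : ℝ) := by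
          rw [← Real.rpow_mul hX0'.le]; norm_num
        rw [h6]
        exact Real.rpow_le_rpow (by positivity) (by linarith) (by norm_num)
      push_cast
      calc (136 : ℝ) * F ≤ 136 * (X : ℝ) ^ (1 / 100 : ℝ) := by linarith
        _ ≤ _ := h3.trans h5
    have h2 := hx0 t (by omega) (136 * F) h1
    refine h2.trans ?_
    have h3 : L ≤ Real.log t := Real.log_le_log hb0 hbt'
    exact div_le_div_of_nonneg_left (by positivity) (by positivity)
      (pow_le_pow_left₀ hL0.le h3 _)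
  -- the sum
  have hy0 : (0 : ℝ) < y1 := by exact_mod_cast (by omega : 0 < y1)
  have hbR : (b : ℝ) ≤ y1 := by exact_mod_cast hby
  have hmain : ∑ f ∈ Icc 1 F, (f.divisors.card : ℝ) ^ C / f * Dsc X (136 * f) ≤
      136 / L ^ (U + 2) * (2 + 2 * (1 + Real.log y1)) := by
    have h1 : ∀ f ∈ Icc 1 F, (f.divisors.card : ℝ) ^ C / f * Dsc X (136 * f) ≤
        (f.divisors.card : ℝ) ^ C / f * ((ee y1 (136 * f) + ee b (136 * f)) / y1 +
          ∑ t ∈ Icc (b + 1) y1, (ee t (136 * f) + ee b (136 * f)) *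
            (1 / ((t : ℝ) - 1) - 1 / (t : ℝ))) := fun f _ =>
      mul_le_mul_of_nonneg_left (Dsc_le X (136 * f) b y1 (by omega) hby hPt) (by positivity)
    refine (sum_le_sum h1).trans ?_
    have h2 : ∑ f ∈ Icc 1 F, (f.divisors.card : ℝ) ^ C / f *
        ((ee y1 (136 * f) + ee b (136 * f)) / y1 +
          ∑ t ∈ Icc (b + 1) y1, (ee t (136 * f) + ee b (136 * f)) *
            (1 / ((t : ℝ) - 1) - 1 / (t : ℝ))) =
        (∑ f ∈ Icc 1 F, (f.divisors.card : ℝ) ^ C / f * ee y1 (136 * f) +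
          ∑ f ∈ Icc 1 F, (f.divisors.card : ℝ) ^ C / f * ee b (136 * f)) / y1 +
        ∑ t ∈ Icc (b + 1) y1, (∑ f ∈ Icc 1 F, (f.divisors.card : ℝ) ^ C / f * ee t (136 * f) +
          ∑ f ∈ Icc 1 F, (f.divisors.card : ℝ) ^ C / f * ee b (136 * f)) *
            (1 / ((t : ℝ) - 1) - 1 / (t : ℝ)) := by
      simp only [mul_add, sum_add_distrib]
      congr 1
      · rw [← sum_add_distrib, sum_div]
        refine sum_congr rfl (fun f _ => ?_)
        ring
      · simp only [mul_sum]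
        rw [sum_comm]
        refine sum_congr rfl (fun t _ => ?_)
        rw [← sum_add_distrib, sum_mul]
        refine sum_congr rfl (fun f _ => ?_)
        ring
    rw [h2]
    have h3 : (∑ f ∈ Icc 1 F, (f.divisors.card : ℝ) ^ C / f * ee y1 (136 * f) +
          ∑ f ∈ Icc 1 F, (f.divisors.card : ℝ) ^ C / f * ee b (136 * f)) / y1 ≤
        136 / L ^ (U + 2) * 2 := by
      rw [div_le_iff₀ hy0]
      have h4 := hW y1 hby
      have h5 := hW b le_rfl
      have h6 : (b : ℝ) / L ^ (U + 2) ≤ y1 / L ^ (U + 2) :=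
        div_le_div_of_nonneg_right hbR (by positivity)
      have h7 : 136 / L ^ (U + 2) * 2 * (y1 : ℝ) = 136 * (y1 / L ^ (U + 2)) +
        136 * (y1 / L ^ (U + 2)) := by ring
      rw [h7]
      linarith
    have h4 : ∑ t ∈ Icc (b + 1) y1,
        (∑ f ∈ Icc 1 F, (f.divisors.card : ℝ) ^ C / f * ee t (136 * f) +
          ∑ f ∈ Icc 1 F, (f.divisors.card : ℝ) ^ C / f * ee b (136 * f)) *
            (1 / ((t : ℝ) - 1) - 1 / (t : ℝ)) ≤
        ∑ t ∈ Icc (b + 1) y1, 136 / L ^ (U + 2) * 2 * (1 / ((t : ℝ) - 1)) := by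
      refine sum_le_sum (fun t ht => ?_)
      rw [mem_Icc] at ht
      have h5 := hW t (by omega)
      have h6 := hW b le_rfl
      have htb : (b : ℝ) ≤ t := by exact_mod_cast (by omega : b ≤ t)
      have h7 : (b : ℝ) / L ^ (U + 2) ≤ t / L ^ (U + 2) :=
        div_le_div_of_nonneg_right htb (by positivity)
      have ht2 : (2 : ℝ) ≤ t := by exact_mod_cast (by omega : 2 ≤ t)
      have h8 := w_nonneg t (by omega)
      calc _ ≤ (136 * (t / L ^ (U + 2)) + 136 * (t / L ^ (U + 2))) *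
            (1 / ((t : ℝ) - 1) - 1 / (t : ℝ)) := by
            refine mul_le_mul_of_nonneg_right ?_ h8
            linarith
        _ = 136 / L ^ (U + 2) * 2 * (1 / ((t : ℝ) - 1)) := by
            have h9 : (t : ℝ) - 1 ≠ 0 := by linarith
            have h10 : (t : ℝ) ≠ 0 := by linarith
            field_simp
            ring
    rw [← mul_sum] at h4
    have h5 := harm b y1 (by omega) hby
    have h6 : 136 / L ^ (U + 2) * 2 * ∑ t ∈ Icc (b + 1) y1, 1 / ((t : ℝ) - 1) ≤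
        136 / L ^ (U + 2) * 2 * (1 + Real.log y1) :=
      mul_le_mul_of_nonneg_left h5 (by positivity)
    calc _ ≤ 136 / L ^ (U + 2) * 2 + 136 / L ^ (U + 2) * 2 * (1 + Real.log y1) :=
          add_le_add h3 (h4.trans h6)
      _ = _ := by ring
  refine hmain.trans ?_
  have hlogy : Real.log y1 ≤ Real.log X := by
    apply Real.log_le_log hy0
    have h1 : (y1 : ℝ) ≤ (X : ℝ) ^ (1 / 2 : ℝ) := Nat.floor_le (by positivity)
    calc (y1 : ℝ) ≤ (X : ℝ) ^ (1 / 2 : ℝ) := h1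
      _ ≤ (X : ℝ) ^ (1 : ℝ) := Real.rpow_le_rpow_of_exponent_le hX1 (by norm_num)
      _ = X := Real.rpow_one _
  have h1 : 2 + 2 * (1 + Real.log y1) ≤ 6 * Real.log X := by linarith
  have h2 : 136 / L ^ (U + 2) ≤ 136 * 4 ^ (U + 2) / Real.log X ^ (U + 2) := by
    have h3 : (Real.log X / 4) ^ (U + 2) ≤ L ^ (U + 2) :=
      pow_le_pow_left₀ (by linarith) hLX _
    calc 136 / L ^ (U + 2) ≤ 136 / (Real.log X / 4) ^ (U + 2) :=
          div_le_div_of_nonneg_left (by norm_num) (by positivity) h3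
      _ = 136 * 4 ^ (U + 2) / Real.log X ^ (U + 2) := by
          rw [div_pow]
          field_simp
  have hlp : 0 < Real.log X := by linarith
  calc 136 / L ^ (U + 2) * (2 + 2 * (1 + Real.log y1)) ≤
        136 * 4 ^ (U + 2) / Real.log X ^ (U + 2) * (6 * Real.log X) := by
        refine mul_le_mul h2 h1 ?_ (by positivity)
        have : 0 ≤ Real.log y1 := Real.log_nonneg (by exact_mod_cast (by omega : 1 ≤ y1))
        linarith
    _ = (136 * 6 * 4 ^ (U + 2)) * Real.log X / (Real.log X ^ U * (Real.log X * Real.log X)) := by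
        rw [pow_add (Real.log X) U 2]
        ring
    _ ≤ Real.log X * Real.log X / (Real.log X ^ U * (Real.log X * Real.log X)) := by
        refine div_le_div_of_nonneg_right ?_ (by positivity)
        exact mul_le_mul_of_nonneg_right hlogX hlp.le
    _ = 1 / Real.log X ^ U := by
        field_simp

end Pool.Agent.Y823.RZ
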